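import Pool.Agent.Run7.h573.FK.Iface

set_option autoImplicit false

namespace Pool.Agent.Run7.h573.FK

open Topology Filter Set

universe u

variable {W : Type u} [LinearOrder W] [OrderTop W] [TopologicalSpace W]

theorem t_P2 [OrderTopology W] [CompactSpace W] (hW : Good W) : S_P2 W := by
  intro m φ hφ ε hε
  by_contra hcon
  push Not at hcon
  haveI : Nonempty (XX W) := ⟨iot W 0⟩
  -- the bad points
  choose! U hU1 hU2 using hcon
  -- the sequence
  obtain ⟨a0, ha0⟩ := hW.ne
  have hnext : ∀ α : W, α < ⊤ → ∃ b : W, b < ⊤ ∧ α ≤ b ∧ ∀ i, (U α i).1.2 ≤ b := by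
    intro α hα
    obtain ⟨s, hs, hs'⟩ := hW.bdd (fun k => if h : k < m then max α (U α ⟨k, h⟩).1.2 else α) (by
      intro k
      split_ifs with h
      · exact max_lt hα (hU1 α hα _)
      · exact hα)
    refine ⟨s, hs, ?_, fun i => ?_⟩
    · have := hs' m
      simpa using this
    · have := hs' i.1
      rw [dif_pos i.2] at this
      exact le_trans (le_max_right _ _) this
  choose! nx hnx1 hnx2 hnx3 using hnext
  let a : ℕ → W := fun k => nx^[k] a0
  have ha1 : ∀ k, a k < ⊤ := by
    intro k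
    induction k with
    | zero => exact ha0
    | succ k ih =>
      change nx^[k+1] a0 < ⊤
      rw [Function.iterate_succ_apply']
      exact hnx1 _ ih
  have hasucc : ∀ k, a (k + 1) = nx (a k) := fun k => Function.iterate_succ_apply' _ _ _
  have hamono : Monotone a := monotone_nat_of_le_succ fun k => by
    rw [hasucc]; exact hnx2 _ (ha1 k)
  obtain ⟨s, hs, hlim, hle⟩ := hW.mono a hamono ha1
  -- the compact set
  let q : Ultrafilter ℕ × W → XX W := fun c => ⟨(c.1, min c.2 s), Or.inl (lt_of_le_of_lt (min_le_right _ _) hs)⟩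
  have hq : Continuous q := by
    refine Continuous.subtype_mk ?_ _
    exact continuous_fst.prodMk (continuous_snd.min continuous_const)
  have hK1 : IsCompact (range q) := isCompact_range hq
  have hmem : ∀ x : XX W, x.1.2 ≤ s → x ∈ range q := by
    intro x hx
    refine ⟨x.1, ?_⟩
    apply Subtype.ext
    apply Prod.ext
    · rfl
    · exact min_eq_left hx
  let L : Set (Fin m → XX W) := Set.pi univ fun _ => range q
  have hL : IsCompact L := isCompact_univ_pi fun _ => hK1
  let un : ℕ → (Fin m → XX W) := fun k => U (a k)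
  have hunL : ∀ k, un k ∈ L := by
    intro k i _
    apply hmem
    have h1 := hnx3 (a k) (ha1 k) i
    rw [← hasucc] at h1
    exact le_trans h1 (hle _)
  let vn : ℕ → (Fin m → XX W) := fun k i => ret (a k) (un k i)
  have hvnL : ∀ k, vn k ∈ L := by
    intro k i _
    apply hmem
    exact le_trans (min_le_right _ _) (hle k)
  obtain ⟨v, hvL, hv⟩ := hL.ultrafilter_le_nhds ((hyperfilter ℕ).map un) (by
    rw [le_principal_iff, Ultrafilter.mem_coe, Ultrafilter.mem_map]
    exact Filter.univ_mem' hunL)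
  have hun : Tendsto un (hyperfilter ℕ) (𝓝 v) := hv
  have hlim' : Tendsto a (hyperfilter ℕ) (𝓝 s) := hlim.mono_left Nat.hyperfilter_le_atTop
  have hvn : Tendsto vn (hyperfilter ℕ) (𝓝 v) := by
    rw [tendsto_pi_nhds] at hun ⊢
    intro i
    have h1 := hun i
    rw [tendsto_subtype_rng] at h1 ⊢
    rw [Prod.tendsto_iff] at h1 ⊢
    refine ⟨h1.1, ?_⟩
    have h2 := h1.2.min hlim'
    have h3 : min (v i).1.2 s = (v i).1.2 := by
      obtain ⟨c, hc⟩ := hvL i (mem_univ _)
      rw [← hc]
      exact min_eq_left (min_le_right _ _)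
    rw [h3] at h2
    exact h2
  have hc := hφ L hL v hvL
  have h1 : Tendsto (fun k => φ (un k)) (hyperfilter ℕ) (𝓝 (φ v)) :=
    hc.tendsto.comp (tendsto_nhdsWithin_iff.2 ⟨hun, Eventually.of_forall hunL⟩)
  have h2 : Tendsto (fun k => φ (vn k)) (hyperfilter ℕ) (𝓝 (φ v)) :=
    hc.tendsto.comp (tendsto_nhdsWithin_iff.2 ⟨hvn, Eventually.of_forall hvnL⟩)
  have h3 : Tendsto (fun k => |φ (un k) - φ (vn k)|) (hyperfilter ℕ) (𝓝 |φ v - φ v|) := (h1.sub h2).abs
  rw [sub_self, abs_zero] at h3
  have h4 : ε ≤ 0 := ge_of_tendsto h3 (Eventually.of_forall fun k => (hU2 (a k) (ha1 k)).le)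
  linarith

end Pool.Agent.Run7.h573.FK
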