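import Pool.Agent.Run7.h573.FK.Free
import Pool.Agent.Run7.h573.FK.P2

set_option autoImplicit false

namespace Pool.Agent.Run7.h573.FK

open Topology Filter Set FreeAbelianGroup

universe u v

attribute [local instance] freeTop freeTop_grp

variable {W : Type u} [LinearOrder W] [OrderTop W] [TopologicalSpace W]

theorem top_neBot [OrderTopology W] (hW : Good W) : (𝓝[<] (⊤ : W)).NeBot := by
  rw [← mem_closure_iff_nhdsWithin_neBot, mem_closure_iff_nhds]
  intro t ht
  obtain ⟨l, hl, hlt⟩ := exists_Ioc_subset_of_mem_nhds ht hW.ne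
  obtain ⟨b, hb1, hb2⟩ := hW.top l hl
  exact ⟨b, hlt ⟨hb1, le_top⟩, hb2⟩

theorem P2all [OrderTopology W] [CompactSpace W] (hW : Good W) (m : ℕ) (φ : (Fin m → XX W) → ℝ)
    (hφ : ∀ K : Set (Fin m → XX W), IsCompact K → ContinuousOn φ K) (ε : ℝ) (hε : 0 < ε) :
    ∃ α : W, α < ⊤ ∧ ∀ u : Fin m → XX W, |φ u - φ (fun i => ret α (u i))| ≤ ε := by
  obtain ⟨α, hα, h⟩ := t_P2 hW m φ hφ ε hε
  refine ⟨α, hα, fun u => ?_⟩
  let γ : W → (Fin m → XX W) := fun b i => ret b (u i)
  have hγ : Continuous γ := by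
    refine continuous_pi fun i => ?_
    refine Continuous.subtype_mk ?_ _
    exact continuous_const.prodMk (continuous_const.min continuous_id)
  have h1 : Continuous (φ ∘ γ) := (hφ (range γ) (isCompact_range hγ)).comp_continuous hγ mem_range_self
  have h2 : γ ⊤ = u := by
    funext i
    apply Subtype.ext
    apply Prod.ext
    · rfl
    · exact min_eq_left le_top
  have h3 : Tendsto (fun b => |φ (γ b) - φ (fun i => ret α (u i))|) (𝓝[<] ⊤)
      (𝓝 |φ u - φ (fun i => ret α (u i))|) := by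
    have h4 : Tendsto (φ ∘ γ) (𝓝[<] ⊤) (𝓝 (φ u)) := by
      have := h1.tendsto ⊤
      rw [Function.comp_apply, h2] at this
      exact this.mono_left nhdsWithin_le_nhds
    exact (h4.sub_const _).abs
  haveI := top_neBot hW
  refine le_of_tendsto h3 ?_
  have h5 : ∀ᶠ b in 𝓝[<] (⊤ : W), b < ⊤ := eventually_mem_nhdsWithin
  have h6 : ∀ᶠ b in 𝓝[<] (⊤ : W), α < b := nhdsWithin_le_nhds (Ioi_mem_nhds hα)
  filter_upwards [h5, h6] with b hb1 hb2
  have h7 := h (γ b) (fun i => lt_of_le_of_lt (min_le_right _ _) hb1)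
  have h8 : (fun i => ret α (γ b i)) = fun i => ret α (u i) := by
    funext i
    apply Subtype.ext
    apply Prod.ext
    · rfl
    · change min (min (u i).1.2 b) α = min (u i).1.2 α
      rw [min_assoc, min_eq_right hb2.le]
  rw [h8] at h7
  exact h7

theorem exists_fin (X : Type u) (a : FreeAbelianGroup X) :
    ∃ (m : ℕ) (c : Fin m → ℤ) (u : Fin m → X), a = ∑ i, c i • of (u i) := by
  refine ⟨a.support.card, fun i => a.coeff (a.support.equivFin.symm i).1,
    fun i => (a.support.equivFin.symm i).1, ?_⟩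
  conv_lhs => rw [eq_sum_support_coeff_smul_of a]
  rw [← Finset.sum_coe_sort a.support (fun x => a.coeff x • of x)]
  exact (Equiv.sum_comp a.support.equivFin.symm (fun x : a.support => a.coeff x.1 • of x.1)).symm

theorem fac [OrderTopology W] [CompactSpace W] (hW : Good W) (f : FreeAbelianGroup (XX W) → ℝ)
    (hf : ∀ K : Set (FreeAbelianGroup (XX W)), IsCompact K → ContinuousOn f K) :
    ∃ s : W, s < ⊤ ∧ ∀ a, f a = f (FreeAbelianGroup.map (ret s) a) := by
  have hof : Continuous (of : XX W → FreeAbelianGroup (XX W)) := freeTop_of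
  have hφ : ∀ (m : ℕ) (c : Fin m → ℤ), ∀ K : Set (Fin m → XX W), IsCompact K →
      ContinuousOn (fun u : Fin m → XX W => f (∑ i, c i • of (u i))) K := by
    intro m c K hK
    have hσ : Continuous fun u : Fin m → XX W => (∑ i, c i • of (u i) : FreeAbelianGroup (XX W)) :=
      continuous_finsetSum _ fun i _ =>
        (continuous_zsmul (c i)).comp (hof.comp (continuous_apply i))
    exact (hf _ (hK.image hσ)).comp hσ.continuousOn (mapsTo_image _ _)
  have hex : ∀ j : (Σ m : ℕ, (Fin m → ℤ) × ℕ), ∃ α : W, α < ⊤ ∧ ∀ u : Fin j.1 → XX W,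
      |f (∑ i, j.2.1 i • of (u i)) - f (∑ i, j.2.1 i • of (ret α (u i)))| ≤ 1 / ((j.2.2 : ℝ) + 1) :=
    fun j => P2all hW j.1 _ (hφ j.1 j.2.1) _ (by positivity)
  choose α hα1 hα2 using hex
  haveI : Nonempty (Σ m : ℕ, (Fin m → ℤ) × ℕ) := ⟨⟨0, fun _ => 0, 0⟩⟩
  obtain ⟨e, he⟩ := exists_surjective_nat (Σ m : ℕ, (Fin m → ℤ) × ℕ)
  obtain ⟨s, hs, hsα⟩ := hW.bdd (fun k => α (e k)) (fun k => hα1 _)
  refine ⟨s, hs, fun a => ?_⟩
  obtain ⟨m, c, u, rfl⟩ := exists_fin _ a
  have hmap : FreeAbelianGroup.map (ret s) (∑ i, c i • of (u i)) = ∑ i, c i • of (ret s (u i)) := by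
    simp [map_sum]
  rw [hmap]
  have h1 : ∀ j : ℕ, |f (∑ i, c i • of (u i)) - f (∑ i, c i • of (ret s (u i)))| ≤
      2 * (1 / ((j : ℝ) + 1)) := by
    intro j
    obtain ⟨k, hk⟩ := he ⟨m, c, j⟩
    have h2 : α ⟨m, c, j⟩ ≤ s := by rw [← hk]; exact hsα k
    have h3 := hα2 ⟨m, c, j⟩ u
    have h4 := hα2 ⟨m, c, j⟩ (fun i => ret s (u i))
    have h5 : ∀ i, ret (α ⟨m, c, j⟩) (ret s (u i)) = ret (α ⟨m, c, j⟩) (u i) := by
      intro i
      apply Subtype.ext
      apply Prod.ext
      · rfl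
      · change min (min (u i).1.2 s) _ = min (u i).1.2 _
        rw [min_assoc, min_eq_right h2]
    simp only [h5] at h4
    rw [abs_sub_comm] at h4
    have := abs_sub_le (f (∑ i, c i • of (u i))) (f (∑ i, c i • of (ret (α ⟨m, c, j⟩) (u i))))
      (f (∑ i, c i • of (ret s (u i))))
    dsimp only at h3 h4
    linarith
  have h2 : Tendsto (fun j : ℕ => 2 * (1 / ((j : ℝ) + 1))) atTop (𝓝 0) := by
    have := tendsto_one_div_add_atTop_nhds_zero_nat (𝕜 := ℝ)
    simpa using this.const_mul 2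
  have h3 := ge_of_tendsto' h2 h1
  have h4 := abs_nonpos_iff.1 h3
  linarith

theorem kr [OrderTopology W] [CompactSpace W] (hW : Good W) (hP1 : S_P1.{u}) :
    IsKR (FreeAbelianGroup (XX W)) := by
  intro f hf
  obtain ⟨s, hs, h⟩ := fac hW f hf
  let q : Ultrafilter ℕ × W → XX W := fun c => ⟨(c.1, min c.2 s), Or.inl (lt_of_le_of_lt (min_le_right _ _) hs)⟩
  have hq : Continuous q := by
    refine Continuous.subtype_mk ?_ _
    exact continuous_fst.prodMk (continuous_snd.min continuous_const)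
  have hp : Continuous (Subtype.val : XX W → Ultrafilter ℕ × W) := continuous_subtype_val
  have hqp : q ∘ (Subtype.val : XX W → Ultrafilter ℕ × W) = ret s := by
    funext x
    rfl
  have h1 : Continuous (fun a => f (FreeAbelianGroup.map q a)) := by
    refine hP1 (Ultrafilter ℕ × W) _ fun K hK => ?_
    exact (hf _ (hK.image (map_cont hq))).comp (map_cont hq).continuousOn (mapsTo_image _ _)
  have h2 : f = (fun a => f (FreeAbelianGroup.map q a)) ∘
      (FreeAbelianGroup.map (Subtype.val : XX W → Ultrafilter ℕ × W)) := by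
    funext a
    rw [h a, ← hqp, FreeAbelianGroup.map_comp_apply]
    rfl
  rw [h2]
  exact h1.comp (map_cont hp)

end Pool.Agent.Run7.h573.FK
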