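import Pool.Agent.Run7.h573.FK.Iface

set_option autoImplicit false

namespace Pool.Agent.Run7.h573.FK

open Topology Filter Set FreeAbelianGroup

universe u v

section Free

variable {X : Type u} [TopologicalSpace X]

theorem freeTop_grp : @IsTopologicalAddGroup _ (freeTop X) _ :=
  topologicalAddGroup_sInf fun _ ht => ht.1

theorem freeTop_of : @Continuous _ _ _ (freeTop X) (of : X → _) :=
  continuous_sInf_rng.2 fun _ ht => ht.2

theorem freeTop_le {s : TopologicalSpace (FreeAbelianGroup X)} (h1 : @IsTopologicalAddGroup _ s _)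
    (h2 : @Continuous _ _ _ s (of : X → _)) : freeTop X ≤ s := sInf_le ⟨h1, h2⟩

theorem freeTop_lift {G : Type v} [AddCommGroup G] [TopologicalSpace G] [IsTopologicalAddGroup G]
    {f : X → G} (hf : Continuous f) : @Continuous _ _ (freeTop X) _ (lift f) := by
  rw [continuous_iff_le_induced]
  refine freeTop_le (topologicalAddGroup_induced _) ?_
  refine continuous_induced_rng.2 ?_
  have : (fun a => lift f a) ∘ (of : X → FreeAbelianGroup X) = f := by
    funext x
    simp
  rw [show (⇑(lift f)) ∘ (of : X → FreeAbelianGroup X) = f from this]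
  exact hf

end Free

attribute [local instance] freeTop freeTop_grp

theorem map_cont {X : Type u} {Y : Type v} [TopologicalSpace X] [TopologicalSpace Y] {f : X → Y}
    (hf : Continuous f) : Continuous (map f : FreeAbelianGroup X → FreeAbelianGroup Y) :=
  freeTop_lift (freeTop_of.comp hf)

theorem lift_eq {X : Type u} {G : Type v} [AddCommGroup G] (f : X → G) (a : FreeAbelianGroup X) :
    lift f a = ∑ x ∈ a.support, a.coeff x • f x := by
  conv_lhs => rw [eq_sum_support_coeff_smul_of a]
  simp [map_sum]

/-- separation of an element from the subgroup of a closed set -/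
theorem sep {X : Type u} [TopologicalSpace X] [T35Space X] (Z : Set X) (hZ : IsClosed Z)
    (a : FreeAbelianGroup X) (x : X) (hx : x ∉ Z) (hax : a.coeff x ≠ 0) :
    ∃ f : X → ℝ, Continuous f ∧ (∀ z ∈ Z, f z = 0) ∧ lift f a ≠ 0 := by
  classical
  have hcl : IsClosed (Z ∪ ((a.support.erase x : Finset X) : Set X)) :=
    hZ.union (Finset.finite_toSet _).isClosed
  have hxn : x ∉ Z ∪ ((a.support.erase x : Finset X) : Set X) := by
    rintro (h | h)
    · exact hx h
    · simp at h
  obtain ⟨g, hg, hgx, hg1⟩ := CompletelyRegularSpace.completely_regular x _ hcl hxn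
  refine ⟨fun y => 1 - (g y : ℝ), by fun_prop, fun z hz => ?_, ?_⟩
  · have := hg1 (Or.inl hz)
    simp [this]
  · rw [lift_eq, Finset.sum_eq_single x]
    · simp [hgx, hax]
    · intro y hy hyx
      have h1 : y ∈ Z ∪ ((a.support.erase x : Finset X) : Set X) := by
        right
        simp only [Finset.coe_erase, Set.mem_diff, Finset.mem_coe, Set.mem_singleton_iff]
        exact ⟨hy, hyx⟩
      have := hg1 h1
      simp [this]
    · intro h
      rw [notMem_support_iff] at h
      exact absurd h hax

theorem freeTop_t2 {X : Type u} [TopologicalSpace X] [T35Space X] : T2Space (FreeAbelianGroup X) := by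
  refine ⟨fun a b hab => ?_⟩
  have h1 : a - b ≠ 0 := sub_ne_zero.2 hab
  have h2 : (a - b).support.Nonempty := nonempty_support_iff.2 h1
  obtain ⟨x, hx⟩ := h2
  rw [mem_support_iff] at hx
  obtain ⟨f, hf, -, hfa⟩ := sep ∅ isClosed_empty (a - b) x (by simp) hx
  refine separated_by_continuous (freeTop_lift hf) ?_
  rw [map_sub, sub_ne_zero] at hfa
  exact hfa

theorem freeTop_emb {X : Type u} [TopologicalSpace X] [T35Space X] :
    IsEmbedding (of : X → FreeAbelianGroup X) := by
  refine ⟨isInducing_iff_nhds.2 fun x => le_antisymm ?_ ?_, of_injective⟩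
  · exact map_le_iff_le_comap.1 freeTop_of.continuousAt
  · intro U hU
    obtain ⟨U', hU', hU'o, hxU'⟩ := mem_nhds_iff.1 hU
    obtain ⟨g, hg, hgx, hg1⟩ := CompletelyRegularSpace.completely_regular x U'ᶜ hU'o.isClosed_compl
      (by simpa using hxU')
    have hg' : Continuous fun y => (g y : ℝ) := by fun_prop
    have h1 : Continuous (lift fun y => (g y : ℝ)) := freeTop_lift hg'
    refine mem_comap.2 ⟨(lift fun y => (g y : ℝ)) ⁻¹' Iio 1, ?_, ?_⟩
    · refine h1.continuousAt ?_
      rw [lift_apply_of, hgx]
      exact Iio_mem_nhds (by simp)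
    · intro y hy
      apply hU'
      by_contra hyU
      have h2 := hg1 hyU
      have h3 : lift (fun y => (g y : ℝ)) (of y) < 1 := hy
      rw [lift_apply_of, h2] at h3
      simp at h3

theorem freeTop_least (X : Type u) [TopologicalSpace X] [T35Space X] :
    IsLeast {s : TopologicalSpace (FreeAbelianGroup X) |
      @IsTopologicalAddGroup _ s _ ∧ @IsEmbedding _ _ _ s (of : X → FreeAbelianGroup X)} (freeTop X) := by
  refine ⟨⟨freeTop_grp, freeTop_emb⟩, ?_⟩
  rintro s ⟨h1, h2⟩
  exact freeTop_le h1 h2.continuous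

theorem closed_range {X : Type u} [TopologicalSpace X] [T35Space X] (ι : ℕ → X)
    (hZ : IsClosed (range ι)) : IsClosed ((FreeAbelianGroup.map ι).range : Set (FreeAbelianGroup X)) := by
  have h : ((FreeAbelianGroup.map ι).range : Set (FreeAbelianGroup X)) =
      ⋂ f : {f : X → ℝ // Continuous f ∧ ∀ n, f (ι n) = 0}, (lift f.1) ⁻¹' {0} := by
    ext a
    rw [mem_iInter]
    constructor
    · rintro ⟨b, rfl⟩ f
      change lift f.1 (FreeAbelianGroup.map ι b) = 0
      rw [← lift_comp, show f.1 ∘ ι = 0 from funext f.2.2]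
      rw [lift_eq]
      simp
    · intro h
      by_contra hcon
      have h1 : ∃ x, x ∉ range ι ∧ a.coeff x ≠ 0 := by
        by_contra h2
        push Not at h2
        apply hcon
        rw [eq_sum_support_coeff_smul_of a]
        refine AddSubgroup.sum_mem _ fun x hx => ?_
        rw [mem_support_iff] at hx
        have h3 : x ∈ range ι := by
          by_contra h4
          exact hx (h2 x h4)
        obtain ⟨n, rfl⟩ := h3
        have h4 : (of (ι n) : FreeAbelianGroup X) ∈ (FreeAbelianGroup.map ι).range :=
          ⟨of n, map_of_apply n⟩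
        exact AddSubgroup.zsmul_mem _ h4 _
      obtain ⟨x, hx, hax⟩ := h1
      obtain ⟨f, hf, hf0, hfa⟩ := sep _ hZ a x hx hax
      exact hfa (h ⟨f, hf, fun n => hf0 _ (mem_range_self n)⟩)
  rw [h]
  exact isClosed_iInter fun f => isClosed_singleton.preimage (freeTop_lift f.2.1)

end Pool.Agent.Run7.h573.FK
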