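import Mathlib

/-!
# Project FK (MP_ebea7e_gt, Q2): a Tychonoff space `X` such that `A(X)` is a `k_ℝ`-space and has a closed
subgroup which is not a `k_ℝ`-space.

`W` is a compact linearly ordered space whose top `⊤` is not isolated and has uncountable cofinality (`ω₁ + 1`),
`X = {(p, w) ∈ βω × W | w < ⊤ or p ∈ ω}`.
-/

set_option autoImplicit false

namespace Pool.Agent.Run7.h573.FK

open Topology Filter Set

universe u

/-- `k_ℝ`-space: real functions which are continuous on every compact set are continuous -/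
def IsKR (X : Type u) [TopologicalSpace X] : Prop :=
  ∀ f : X → ℝ, (∀ K : Set X, IsCompact K → ContinuousOn f K) → Continuous f

/-- the finest group topology on the free Abelian group for which `of` is continuous -/
def freeTop (X : Type u) [TopologicalSpace X] : TopologicalSpace (FreeAbelianGroup X) :=
  sInf {s | @IsTopologicalAddGroup _ s _ ∧ @Continuous _ _ _ s FreeAbelianGroup.of}

/-- P1: compact spaces. Proof. `f` is continuous on every compact set of `A(C)`, `a₀ ∈ A(C)`. For a sequence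
`U : ℕ → Set (C × C)` of open sets containing the diagonal let `N U` be the set of all
`∑ i ∈ range n, (of (x i) - of (y i))` with `n : ℕ`, `x y : ℕ → C` and `(x i, y i) ∈ U i` for all `i`.
The sets `N U` are an `AddGroupFilterBasis` (for the sum take `V i = U (2i) ∩ U (2i+1)`, for the negative
`V i = U i ∩ swap ⁻¹' U i`), its topology makes `of` continuous (`(x, x₀) ∈ U 0` gives `of x - of x₀ ∈ N U`), so
`freeTop C ≤` that topology. For `n` the function
`G (p : Fin n → C × C) (x y : C) = f (a₀ + ∑ i, (of (p i).1 - of (p i).2) + (of x - of y))` is continuous (the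
domain is compact, the map to `A(C)` is continuous, so its range is compact). The set `U n` of all `(x, y)` such
that `|G p x y - G p x x| < ε / 2^(n+2)` for ALL `p` is open (projection along a compact factor is closed) and
contains the diagonal. For `s ∈ N U`: `|f (a₀ + s) - f a₀| ≤ ∑ ε / 2^(i+2) < ε`. -/
def S_P1 : Prop := ∀ (C : Type u) [TopologicalSpace C] [CompactSpace C] [T2Space C],
  @IsKR (FreeAbelianGroup C) (freeTop C)

/-- the ground space -/
abbrev XX (W : Type u) [LinearOrder W] [OrderTop W] [TopologicalSpace W] : Type u :=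
  {x : Ultrafilter ℕ × W // x.2 < ⊤ ∨ ∃ n : ℕ, x.1 = pure n}

variable {W : Type u} [LinearOrder W] [OrderTop W] [TopologicalSpace W]

/-- the retraction `(p, w) ↦ (p, min w b)` -/
def ret (b : W) (x : XX W) : XX W :=
  ⟨(x.1.1, min x.1.2 b), by
    rcases x.2 with h | h
    · exact Or.inl (lt_of_le_of_lt (min_le_left _ _) h)
    · exact Or.inr h⟩

/-- the points `(n, ⊤)` -/
def iot (W : Type u) [LinearOrder W] [OrderTop W] [TopologicalSpace W] (n : ℕ) : XX W :=
  ⟨(pure n, ⊤), Or.inr ⟨n, rfl⟩⟩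

/-- the assumptions on `W` -/
structure Good (W : Type u) [LinearOrder W] [OrderTop W] [TopologicalSpace W] : Prop where
  mono : ∀ a : ℕ → W, Monotone a → (∀ k, a k < ⊤) → ∃ s < ⊤, Tendsto a atTop (𝓝 s) ∧ ∀ k, a k ≤ s
  bdd : ∀ a : ℕ → W, (∀ k, a k < ⊤) → ∃ s < ⊤, ∀ k, a k ≤ s
  top : ∀ s : W, s < ⊤ → ∃ b, s < b ∧ b < ⊤
  ne : ∃ s : W, s < ⊤

/-- P2. Suppose not. Then for every `α < ⊤` there is `u` with all `(u i).1.2 < ⊤` and
`ε < |φ u - φ (ret α ∘ u)|`. Build `a 0 < ⊤`, `u k` bad for `a k`, `a (k+1) ≥ a k` and `≥` all `(u k i).1.2`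
(finitely many: `Good.bdd`). `a → s < ⊤` by `Good.mono`. All `u k` lie in the compact set
`L = {u | ∀ i, (u i).1.2 ≤ s}` (`Set.pi univ` of the image of `Ultrafilter ℕ × W` under `(p, w) ↦ (p, min w s)`).
Along `hyperfilter ℕ` `u k → v` in `L` (`IsCompact.ultrafilter_le_nhds`) and `ret (a k) ∘ u k → ret s ∘ v = v`
since `min` is continuous. So `φ (u k) - φ (ret (a k) ∘ u k) → 0`, contradiction. -/
def S_P2 (W : Type u) [LinearOrder W] [OrderTop W] [TopologicalSpace W] : Prop :=
  ∀ (m : ℕ) (φ : (Fin m → XX W) → ℝ), (∀ K : Set (Fin m → XX W), IsCompact K → ContinuousOn φ K) →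
    ∀ ε : ℝ, 0 < ε → ∃ α : W, α < ⊤ ∧ ∀ u : Fin m → XX W, (∀ i, (u i).1.2 < ⊤) →
      |φ u - φ (fun i => ret α (u i))| ≤ ε

/-- P3 (Schur property for integers, by the Baire category theorem in `ℕ → Bool`): `F N = {b | ∀ k ≥ N,
∑ n ∈ (s k).support, (if b n then s k n else 0) = 0}` are closed and cover, so some `F N` contains a basic open
set given by a finite set `I`; flipping `b n` for `n ∉ I` gives `s k n = 0` for `k ≥ N`, `n ∉ I`; for `n ∈ I` use
`T = {n}`. -/
def S_P3 : Prop := ∀ s : ℕ → (ℕ →₀ ℤ),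
  (∀ T : Set ℕ, ∀ᶠ k in atTop, (open Classical in (s k).sum fun n c => if n ∈ T then c else 0) = 0) →
    ∀ᶠ k in atTop, s k = 0

/-- P4: `0` is not isolated in the subgroup generated by the points `(n, ⊤)`. Proof. Take `V₁` with
`a, b ∈ V₁ → a - b ∈ V`, `V₂` with `a, b ∈ V₂ → a - b ∈ V₁`. For every `n` there is `β n < ⊤` with
`of (n, β) - of (n, ⊤) ∈ V₂` for all `β n < β < ⊤` (continuity of `of`, order topology). Take `s < ⊤` above all
`β n` and `s < β < ⊤`. `of (pure n, β)` converges along `hyperfilter ℕ` to some `of (p, β)`, so there are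
`n ≠ m` with `of (n, β) - of (p, β), of (m, β) - of (p, β) ∈ V₂`; now
`of (n,⊤) - of (m,⊤) = (e n - d n) - (e m - d m)`. -/
def S_P4 (W : Type u) [LinearOrder W] [OrderTop W] [TopologicalSpace W] : Prop :=
  ∀ t : TopologicalSpace (FreeAbelianGroup (XX W)), @IsTopologicalAddGroup _ t _ →
    @Continuous _ _ _ t (FreeAbelianGroup.of : XX W → _) →
    ∀ V ∈ @nhds _ t 0, ∃ n m : ℕ, n ≠ m ∧
      (FreeAbelianGroup.of (iot W n) - FreeAbelianGroup.of (iot W m) : FreeAbelianGroup (XX W)) ∈ V

/-- P5: `W = ω₁ + 1` in `Type`: e.g. `Shrink (Set.Iic (ω₁ : Ordinal.{0}))` with the transported order and topology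
(`Shrink.homeomorph`, `orderIsoShrink`), or `(Order.succ ω₁).ToType` with `Preorder.topology`; `Ordinal.iSup_lt_omega_one`. -/
def S_P5 : Prop := ∃ (W : Type) (_ : LinearOrder W) (_ : OrderTop W) (_ : TopologicalSpace W),
  OrderTopology W ∧ CompactSpace W ∧ Good W

end Pool.Agent.Run7.h573.FK
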