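import Pool.Agent.Run7.h573.FK.Fac
import Pool.Agent.Run7.h719.FK.P3
import Pool.Agent.Run7.h874.FK.P4

set_option autoImplicit false

namespace Pool.Agent.Run7.h573.FK

open Topology Filter Set FreeAbelianGroup

universe u v

attribute [local instance] freeTop freeTop_grp

variable {W : Type u} [LinearOrder W] [OrderTop W] [TopologicalSpace W]

open Classical in
/-- the indicator function of the clopen set given by `T ⊆ ℕ` -/
noncomputable def chi (W : Type u) [LinearOrder W] [OrderTop W] [TopologicalSpace W] (T : Set ℕ)
    (x : XX W) : ℤ := if T ∈ x.1.1 then 1 else 0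

theorem chi_cont (T : Set ℕ) : Continuous (chi W T) := by
  classical
  have h1 : IsClopen {u : Ultrafilter ℕ | T ∈ u} := ⟨ultrafilter_isClosed_basic T, ultrafilter_isOpen_basic T⟩
  have h2 : Continuous fun u : Ultrafilter ℕ => (if T ∈ u then 1 else 0 : ℤ) := by
    refine continuous_if ?_ continuousOn_const continuousOn_const
    intro a ha
    rw [h1.frontier_eq] at ha
    exact absurd ha (notMem_empty a)
  exact h2.comp (continuous_fst.comp continuous_subtype_val)

theorem chi_iot (T : Set ℕ) (n : ℕ) [Decidable (n ∈ T)] : chi W T (iot W n) = if n ∈ T then 1 else 0 := by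
  classical
  unfold chi iot
  simp only [Ultrafilter.mem_pure]

theorem lift_chi (T : Set ℕ) (b : FreeAbelianGroup ℕ) :
    lift (chi W T) (FreeAbelianGroup.map (iot W) b) =
      (open Classical in b.toFinsupp.sum fun n c => if n ∈ T then c else 0) := by
  classical
  rw [← lift_comp, lift_eq, Finsupp.sum]
  refine Finset.sum_congr rfl fun n _ => ?_
  rw [Function.comp_apply, chi_iot]
  split_ifs
  · simp
    rfl
  · simp

theorem iot_inj : Function.Injective (iot W) := by
  intro n m h
  have h1 : (pure n : Ultrafilter ℕ) = pure m := congrArg (fun x : XX W => x.1.1) h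
  exact Ultrafilter.pure_injective h1

/-- convergent sequences in the subgroup are eventually constant -/
theorem schur (hP3 : S_P3) (g : ℕ → FreeAbelianGroup (XX W))
    (hg : ∀ k, g k ∈ (FreeAbelianGroup.map (iot W)).range) (hlim : Tendsto g atTop (𝓝 0)) :
    ∀ᶠ k in atTop, g k = 0 := by
  classical
  choose b hb using hg
  have h1 : ∀ᶠ k in atTop, (b k).toFinsupp = 0 := by
    refine hP3 (fun k => (b k).toFinsupp) fun T => ?_
    have h2 : Continuous (lift (chi W T)) := freeTop_lift (chi_cont T)
    have h3 : Tendsto (fun k => lift (chi W T) (g k)) atTop (𝓝 0) := by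
      have := (h2.tendsto 0).comp hlim
      rwa [map_zero] at this
    rw [nhds_discrete, tendsto_pure] at h3
    filter_upwards [h3] with k hk
    rw [← hb k, lift_chi] at hk
    convert hk
  filter_upwards [h1] with k hk
  have h2 : b k = 0 := by
    have := congrArg Finsupp.toFreeAbelianGroup hk
    rwa [Finsupp.toFreeAbelianGroup_toFinsupp, map_zero] at this
  rw [← hb k, h2, map_zero]

/-- the points of the subgroup are separated by the functions `chi {n}` -/
theorem coord_inj (a : FreeAbelianGroup (XX W)) (ha : a ∈ (FreeAbelianGroup.map (iot W)).range)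
    (h : ∀ n : ℕ, lift (chi W {n}) a = 0) : a = 0 := by
  classical
  obtain ⟨b, rfl⟩ := ha
  have h1 : b.toFinsupp = 0 := by
    ext n
    have h2 := h n
    rw [lift_chi] at h2
    rw [Finsupp.zero_apply, ← h2, Finsupp.sum]
    simp only [mem_singleton_iff]
    by_cases hn : n ∈ b.toFinsupp.support
    · rw [Finset.sum_eq_single n]
      · simp
      · intro m _ hm
        simp [hm]
      · intro h3
        exact absurd hn h3
    · rw [Finset.sum_eq_zero]
      · simpa using hn
      · intro m hm
        have : m ≠ n := fun h => hn (h ▸ hm)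
        simp [this]
  have h2 : b = 0 := by
    have := congrArg Finsupp.toFreeAbelianGroup h1
    rwa [Finsupp.toFreeAbelianGroup_toFinsupp, map_zero] at this
  rw [h2, map_zero]

theorem not_kr [OrderTopology W] [CompactSpace W] (hW : Good W) (hP3 : S_P3) (hP4 : S_P4 W) :
    ¬ IsKR ((FreeAbelianGroup.map (iot W)).range : AddSubgroup (FreeAbelianGroup (XX W))) := by
  classical
  intro hkr
  set H : AddSubgroup (FreeAbelianGroup (XX W)) := (FreeAbelianGroup.map (iot W)).range with hH
  have hcont := hkr (fun a => if a = 0 then 1 else 0) ?_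
  · have h1 : IsOpen ((fun a : H => (if a = 0 then 1 else 0 : ℝ)) ⁻¹' Ioi (1 / 2)) :=
      isOpen_Ioi.preimage hcont
    have h2 : (fun a : H => (if a = 0 then 1 else 0 : ℝ)) ⁻¹' Ioi (1 / 2) = {0} := by
      ext a
      simp only [mem_preimage, mem_Ioi, mem_singleton_iff]
      split_ifs with h
      · simp only [h, iff_true]; norm_num
      · simp only [h, iff_false]; norm_num
    rw [h2] at h1
    have h3 : ({0} : Set H) ∈ 𝓝 (0 : H) := h1.mem_nhds rfl
    rw [nhds_subtype_eq_comap, mem_comap] at h3
    obtain ⟨V, hV, hVs⟩ := h3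
    obtain ⟨n, m, hnm, hV2⟩ := hP4 _ freeTop_grp freeTop_of V hV
    have h4 : (of (iot W n) - of (iot W m) : FreeAbelianGroup (XX W)) ∈ H :=
      ⟨of n - of m, by rw [map_sub, map_of_apply, map_of_apply]⟩
    have h5 : (⟨_, h4⟩ : H) = 0 := hVs hV2
    have h6 : (of (iot W n) - of (iot W m) : FreeAbelianGroup (XX W)) = 0 := congrArg Subtype.val h5
    exact hnm (iot_inj (of_injective (sub_eq_zero.1 h6)))
  · intro K hK
    rw [continuousOn_iff_continuous_restrict]
    haveI : CompactSpace K := isCompact_iff_compactSpace.1 hK
    let c : K → (ℕ → ℤ) := fun a n => lift (chi W {n}) a.1.1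
    have hc : Continuous c := by
      refine continuous_pi fun n => ?_
      exact (freeTop_lift (chi_cont {n})).comp (continuous_subtype_val.comp continuous_subtype_val)
    have hci : Function.Injective c := by
      intro a a' h
      apply Subtype.ext
      apply Subtype.ext
      rw [← sub_eq_zero]
      refine coord_inj _ (H.sub_mem a.1.2 a'.1.2) fun n => ?_
      rw [map_sub, sub_eq_zero]
      exact congrFun h n
    have hemb : IsClosedEmbedding c := hc.isClosedEmbedding hci
    haveI : FirstCountableTopology K := hemb.isEmbedding.firstCountableTopology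
    rw [continuous_iff_seqContinuous]
    intro x x₀ hx
    have h1 : Tendsto (fun k => (x k).1.1 - x₀.1.1) atTop (𝓝 0) := by
      have h2 : Tendsto (fun k => (x k).1.1) atTop (𝓝 x₀.1.1) :=
        ((continuous_subtype_val.comp continuous_subtype_val).tendsto x₀).comp hx
      have h3 := h2.sub_const x₀.1.1
      rwa [sub_self] at h3
    have h2 := schur hP3 _ (fun k => H.sub_mem (x k).1.2 x₀.1.2) h1
    refine tendsto_const_nhds.congr' ?_
    filter_upwards [h2] with k hk
    have h3 : x k = x₀ := by
      apply Subtype.ext
      apply Subtype.ext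
      exact sub_eq_zero.1 hk
    rw [Function.comp_apply, h3]

end Pool.Agent.Run7.h573.FK
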